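import Mathlib

/-!
# Theorem M, block B: dimension count
-/

set_option autoImplicit false

namespace Pool.Agent.Helper66.M

open MvPolynomial Module

/-- An algebraically independent family in a field generated by `S` has at most `S.card`
members. -/
theorem card_le_of_adjoin {F Ω J : Type} [Field F] [Field Ω] [Algebra F Ω] [Fintype J]
    (x : J → Ω) (hx : AlgebraicIndependent F x) (S : Finset Ω)
    (h : ∀ j, x j ∈ IntermediateField.adjoin F (S : Set Ω)) : Fintype.card J ≤ S.card := by
  classical
  set L := IntermediateField.adjoin F (S : Set Ω) with hL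
  let x' : J → L := fun j => ⟨x j, h j⟩
  have hx' : AlgebraicIndependent F x' := by
    have : AlgebraicIndependent F (L.val ∘ x') := hx
    exact AlgebraicIndependent.of_comp L.val this
  let S' : Set L := {y | (y : Ω) ∈ S}
  have hadj : ∀ z ∈ Algebra.adjoin F (S : Set Ω), ∃ y ∈ Algebra.adjoin F S', (y : Ω) = z := by
    intro z hz
    have : (Algebra.adjoin F (S : Set Ω)) ≤ (Algebra.adjoin F S').map L.val := by
      rw [AlgHom.map_adjoin]
      apply Algebra.adjoin_mono
      intro s hs
      exact ⟨⟨s, IntermediateField.subset_adjoin F _ hs⟩, hs, rfl⟩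
    obtain ⟨y, hy, h1⟩ := this hz
    exact ⟨y, hy, h1⟩
  have halg : Algebra.IsAlgebraic (Algebra.adjoin F S') L := by
    constructor
    rintro ⟨z, hz⟩
    obtain ⟨r, hr, s, hs, hrs⟩ := IntermediateField.mem_adjoin_iff_div.1 hz
    obtain ⟨r', hr', h1⟩ := hadj r hr
    obtain ⟨s', hs', h2⟩ := hadj s hs
    have h3 : (⟨z, hz⟩ : L) = r' * s'⁻¹ := by
      apply Subtype.ext
      change z = (r' : Ω) * (s' : Ω)⁻¹
      rw [h1, h2, hrs, div_eq_mul_inv]
    rw [h3]
    exact (isAlgebraic_algebraMap (⟨r', hr'⟩ : Algebra.adjoin F S')).mul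
      (isAlgebraic_algebraMap (⟨s', hs'⟩ : Algebra.adjoin F S')).inv
  have h4 := hx'.cardinalMk_le_trdeg
  have h5 := Algebra.IsAlgebraic.trdeg_le_cardinalMk F S'
  have h6 : Cardinal.mk S' ≤ S.card := by
    have : Cardinal.mk S' ≤ Cardinal.mk (S : Set Ω) :=
      Cardinal.mk_le_of_injective (f := fun y : S' => (⟨((y : L) : Ω), y.2⟩ : (S : Set Ω)))
        (by
          intro a b hab
          apply Subtype.ext
          apply Subtype.ext
          simpa using hab)
    simpa using this
  have h7 := (h4.trans h5).trans h6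
  rw [Cardinal.mk_fintype] at h7
  exact_mod_cast h7

/-- Dimension count: independent linear equations for `c` with coefficients in `ℚ(w, v)`. -/
theorem count {Ω : Type} [Field Ω] [CharZero Ω] {ι κ ν U : Type} [Fintype ι] [Fintype κ]
    [Fintype ν] [Fintype U] (c : ι → Ω) (w : κ → Ω) (v : ν → Ω)
    (hind : AlgebraicIndependent ℚ (Sum.elim c w)) (T : U → ι → Ω)
    (hT : ∀ u e, T u e ∈ IntermediateField.adjoin ℚ (Set.range w ∪ Set.range v))
    (hs : ∀ t : U → Ω, ∃ c' : ι → Ω, ∀ u, ∑ e, T u e * c' e = t u)
    (h0 : ∀ u, ∑ e, T u e * c e = 0) : Fintype.card U ≤ Fintype.card ν := by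
  classical
  set F0 := IntermediateField.adjoin ℚ (Set.range w ∪ Set.range v) with hF0
  let T' : U → ι → F0 := fun u e => ⟨T u e, hT u e⟩
  -- the rows are independent
  have hli : LinearIndependent F0 T' := by
    rw [Fintype.linearIndependent_iff]
    intro a ha u0
    obtain ⟨c', hc'⟩ := hs (Pi.single u0 1)
    have h1 : ∀ e, ∑ u, (a u : Ω) * T u e = 0 := by
      intro e
      have := congrFun ha e
      rw [Finset.sum_apply] at this
      have h2 := congrArg (Subtype.val : F0 → Ω) this
      rw [AddSubmonoidClass.coe_finsetSum] at h2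
      simpa [T'] using h2
    have h2 : ∑ u, (a u : Ω) * ∑ e, T u e * c' e = 0 := by
      calc ∑ u, (a u : Ω) * ∑ e, T u e * c' e
          = ∑ u, ∑ e, (a u : Ω) * T u e * c' e := by
            refine Finset.sum_congr rfl fun u _ => ?_
            rw [Finset.mul_sum]
            exact Finset.sum_congr rfl fun e _ => by ring
        _ = ∑ e, ∑ u, (a u : Ω) * T u e * c' e := Finset.sum_comm
        _ = ∑ e, (∑ u, (a u : Ω) * T u e) * c' e :=
            Finset.sum_congr rfl fun e _ => by rw [Finset.sum_mul]
        _ = 0 := by simp [h1]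
    have h3 : ∑ u, (a u : Ω) * ∑ e, T u e * c' e = a u0 := by
      simp only [hc']
      rw [Finset.sum_eq_single u0]
      · simp
      · intro u _ hu
        simp [hu]
      · simp
    exact Subtype.ext (h3.symm.trans h2)
  -- the map
  let φ : (ι → F0) →ₗ[F0] Ω := Fintype.linearCombination F0 c
  have hφ : ∀ y, φ y = ∑ e, (y e : Ω) * c e := by
    intro y
    rw [Fintype.linearCombination_apply]
    exact Finset.sum_congr rfl fun e _ => by rw [Algebra.smul_def]; rfl
  have hker : ∀ u, T' u ∈ LinearMap.ker φ := by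
    intro u
    rw [LinearMap.mem_ker, hφ]
    exact h0 u
  have hkc : Fintype.card U ≤ finrank F0 (LinearMap.ker φ) := by
    have h1 : LinearIndependent F0 (fun u => (⟨T' u, hker u⟩ : LinearMap.ker φ)) := by
      apply LinearIndependent.of_comp (LinearMap.ker φ).subtype
      exact hli
    exact h1.fintype_card_le_finrank
  have hrk := LinearMap.finrank_range_add_finrank_ker φ
  rw [Module.finrank_fintype_fun_eq_card] at hrk
  have hrange : LinearMap.range φ = Submodule.span F0 (Set.range c) :=
    Fintype.range_linearCombination F0 c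
  obtain ⟨κ', a, ha, hsp, hlia⟩ := exists_linearIndependent' F0 c
  have : Fintype κ' := Fintype.ofInjective a ha
  have hcard : Fintype.card κ' = finrank F0 (LinearMap.range φ) := by
    rw [hrange, ← hsp, finrank_span_eq_card hlia]
  let S : Finset Ω := Finset.univ.image w ∪ Finset.univ.image v ∪ Finset.univ.image (c ∘ a)
  have hS : S.card ≤ Fintype.card κ + Fintype.card ν + Fintype.card κ' := by
    refine (Finset.card_union_le _ _).trans (Nat.add_le_add ((Finset.card_union_le _ _).trans
      (Nat.add_le_add ?_ ?_)) ?_) <;> exact Finset.card_image_le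
  have hF : F0 ≤ IntermediateField.adjoin ℚ (S : Set Ω) := by
    rw [hF0]
    apply IntermediateField.adjoin.mono
    rintro _ (⟨i, rfl⟩ | ⟨i, rfl⟩) <;> simp [S]
  have hmem : ∀ j, Sum.elim c w j ∈ IntermediateField.adjoin ℚ (S : Set Ω) := by
    rintro (e | q)
    · change c e ∈ _
      have h1 : c e ∈ Submodule.span F0 (Set.range (c ∘ a)) := by
        rw [hsp]
        exact Submodule.subset_span ⟨e, rfl⟩
      refine Submodule.span_induction (p := fun y _ => y ∈ IntermediateField.adjoin ℚ (S : Set Ω))
        ?_ (zero_mem _) (fun x y _ _ hx hy => add_mem hx hy) ?_ h1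
      · rintro _ ⟨i, rfl⟩
        exact IntermediateField.subset_adjoin ℚ _ (by simp [S])
      · intro f x _ hx
        rw [Algebra.smul_def]
        exact mul_mem (hF f.2) hx
    · exact IntermediateField.subset_adjoin ℚ _ (by simp [S])
  have h8 := card_le_of_adjoin (Sum.elim c w) hind S hmem
  rw [Fintype.card_sum] at h8
  omega

end Pool.Agent.Helper66.M
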