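import Mathlib
import Pool.Agent.Helper88.M.Engine
import Pool.Agent.Helper94.M.Tensor

/-!
# Theorem M, block J: `nice2`
-/

set_option autoImplicit false

namespace Pool.Agent.Helper66.M

open MvPolynomial Pool.Agent.Helper47.M Pool.Agent.Helper88.M

variable {k l : ℕ} {N : Fin k → ℕ} {d : Fin l → Fin k → ℕ}

section lamv

variable {S S' : Type*} [CommRing S] [CommRing S'] (i0 istar : Fin l)

/-- The vector with the entries `0` at `i0`, `1` at `istar`, and `v` elsewhere. -/
def lamv (v : {i : Fin l // i ≠ i0 ∧ i ≠ istar} → S) (i : Fin l) : S :=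
  if h : i ≠ i0 ∧ i ≠ istar then v ⟨i, h⟩ else if i = istar then 1 else 0

theorem lamv_map (f : S →+* S') (v : {i : Fin l // i ≠ i0 ∧ i ≠ istar} → S) (i : Fin l) :
    f (lamv i0 istar v i) = lamv i0 istar (fun q => f (v q)) i := by
  unfold lamv
  split_ifs <;> simp

theorem lamv_star (v : {i : Fin l // i ≠ i0 ∧ i ≠ istar} → S) :
    lamv i0 istar v istar = 1 := by
  unfold lamv
  simp

theorem lamv_eq (lam : Fin l → S) (h0 : lam i0 = 0) (h1 : lam istar = 1) (hne : istar ≠ i0) :
    lamv i0 istar (fun q => lam q) = lam := by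
  funext i
  unfold lamv
  by_cases hi : i = istar
  · subst hi
    simp [h1]
  · by_cases hi' : i = i0
    · subst hi'
      simp [hi, h0]
    · simp [hi, hi']

end lamv

theorem card_two (i0 istar : Fin l) (h : istar ≠ i0) :
    Fintype.card {i : Fin l // i ≠ i0 ∧ i ≠ istar} + 2 = l := by
  classical
  rw [Fintype.card_subtype]
  have h1 : (Finset.univ.filter fun i : Fin l => i ≠ i0 ∧ i ≠ istar) =
      (Finset.univ.erase i0).erase istar := by
    ext i
    simp only [Finset.mem_filter, Finset.mem_univ, true_and, Finset.mem_erase, and_true]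
    exact and_comm
  rw [h1, Finset.card_erase_of_mem (by simp [h]), Finset.card_erase_of_mem (Finset.mem_univ _),
    Finset.card_univ, Fintype.card_fin]
  have h2 : 2 ≤ l := by
    have h3 := i0.2
    have h4 := istar.2
    have h5 : (istar : ℕ) ≠ i0 := fun h6 => h (Fin.ext h6)
    omega
  omega

theorem nice2_chart (h : Ty N d) (r : Fin k) (hr : N r = l + 1) (j : Fin k) (hj : N j = l)
    (i0 : Fin l) (e1 : Fin (N r + 1)) (istar : Fin l) (hne : istar ≠ i0) :
    ∃ Δ : MvPolynomial (Tx N d) ℚ, Δ ≠ 0 ∧ ∀ (K : Type) [Field K] [CharZero K] (c : Tx N d → K),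
      aeval c Δ ≠ 0 → ∀ (Ω : Type) [Field Ω] [Algebra K Ω] (x : Pt N Ω), GenPt K c r x →
        x r e1 = 1 → ∀ lam : Fin l → Ω, lam i0 = 0 → lam istar = 1 →
          ¬ ∀ b, ∑ i, lam i * dF (fun e => algebraMap K Ω (c e)) x j b i = 0 := by
  classical
  have hjr : j ≠ r := by
    rintro rfl
    omega
  obtain ⟨Δ, h0, h1⟩ := engine (ι := Tx N d) (κ := {q : Vr N // q.1 ≠ r})
    (V := {i : Fin (N r + 1) // i ≠ e1} ⊕ {i : Fin l // i ≠ i0 ∧ i ≠ istar})
    (U := Fin l ⊕ Fin (N j))
    (fun S _ c w v u => Sum.elim (fun i => Fm c (pt r e1 w fun q => v (Sum.inl q)) i)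
      (fun q => ∑ i, lamv i0 istar (fun q => v (Sum.inr q)) i *
        dF c (pt r e1 w fun q => v (Sum.inl q)) j (Pi.single q.succ 1) i) u) (by
      intro S S' _ _ f c w v u
      rcases u with i | q
      · simp only [Sum.elim_inl]
        rw [Pool.Agent.Helper88.M.Fm_map, pt_map]
      · simp only [Sum.elim_inr]
        rw [map_sum]
        refine Finset.sum_congr rfl fun i _ => ?_
        rw [map_mul, lamv_map, Pool.Agent.Helper88.M.dF_map, pt_map]
        congr 2
        funext i'
        by_cases hi : i' = q.succ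
        · subst hi; simp
        · simp [Pi.single_eq_of_ne hi]) (by
      intro S _ c w v u
      rcases u with i | q
      · simp only [Sum.elim_inl]
        exact Fm_lin _ _ _
      · simp only [Sum.elim_inr]
        simp_rw [Finset.mul_sum]
        rw [Finset.sum_comm]
        refine Finset.sum_congr rfl fun i _ => ?_
        rw [dF_lin, Finset.mul_sum]
        exact Finset.sum_congr rfl fun e _ => by ring) (by
      intro Ω _ _ w v t
      set x := pt r e1 w fun q => v (Sum.inl q) with hx
      set lam := lamv i0 istar (fun q => v (Sum.inr q)) with hlam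
      have hx0 : ∀ r', x r' ≠ 0 := fun r' => pt_ne_zero r e1 w _ r'
      have hxj : x j 0 ≠ 0 := by
        rw [hx, pt_zero r e1 w _ j hjr]
        exact one_ne_zero
      -- the tensors other than `istar`
      have hex : ∀ i, ∃ a : Tn N (d i) → Ω, fv a x = t (Sum.inl i) := by
        intro i
        obtain ⟨a, ha, _⟩ := Pool.Agent.Helper94.M.exists_tensor (h.pos i) x hx0 j 0 hxj
          (t (Sum.inl i)) (fun _ => 0)
        exact ⟨a, ha⟩
      choose a ha using hex
      obtain ⟨as, has, hbs⟩ := Pool.Agent.Helper94.M.exists_tensor (h.pos istar) x hx0 j 0 hxj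
        (t (Sum.inl istar)) (Fin.cons 0 fun q : Fin (N j) => t (Sum.inr q) -
          ∑ i ∈ Finset.univ.erase istar, lam i * dv (a i) x j (Pi.single q.succ 1))
      refine ⟨fun e => (Function.update a istar as) e.1 e.2, ?_⟩
      rintro (i | q)
      · simp only [Sum.elim_inl]
        change fv (Function.update a istar as i) x = _
        by_cases hi : i = istar
        · subst hi
          rw [Function.update_self]
          exact has
        · rw [Function.update_of_ne hi]
          exact ha i
      · simp only [Sum.elim_inr]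
        change ∑ i, lam i * dv (Function.update a istar as i) x j (Pi.single q.succ 1) = _
        rw [← Finset.add_sum_erase _ _ (Finset.mem_univ istar), Function.update_self,
          hbs _ (by simp)]
        have h2 : ∑ i ∈ Finset.univ.erase istar, lam i *
            dv (Function.update a istar as i) x j (Pi.single q.succ 1) =
            ∑ i ∈ Finset.univ.erase istar, lam i * dv (a i) x j (Pi.single q.succ 1) := by
          refine Finset.sum_congr rfl fun i hi => ?_
          rw [Function.update_of_ne (Finset.ne_of_mem_erase hi)]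
        rw [h2, hlam, lamv_star, one_mul, Finset.sum_eq_single q.succ]
        · simp
        · intro i _ hi
          rw [Pi.single_eq_of_ne hi, mul_zero]
        · simp) (by
      rw [Fintype.card_sum, Fintype.card_sum, Fintype.card_fin, Fintype.card_fin]
      have h2 := card_two i0 istar hne
      have h3 : Fintype.card {i : Fin (N r + 1) // i ≠ e1} = N r := by
        simp
      omega)
  refine ⟨Δ, h0, fun K _ _ c hc Ω _ _ x hx hx1 lam hl0 hl1 hb => ?_⟩
  refine h1 K c hc Ω (fun q => x q.1.1 q.1.2.succ)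
    (Sum.elim (fun q => x r q) (fun q => lam q)) hx.ind ?_
  have hxe := eq_pt hx e1 hx1
  rintro (i | q)
  · simp only [Sum.elim_inl]
    rw [← hxe]
    exact hx.eq i
  · simp only [Sum.elim_inr, Sum.elim_inl]
    rw [← hxe, lamv_eq i0 istar lam hl0 hl1 hne]
    exact hb _

theorem nice2 (h : Ty N d) (r : Fin k) (hr : N r = l + 1) (j : Fin k) (hj : N j = l)
    (i0 : Fin l) (hi : d i0 j = 2) :
    ∃ Δ : MvPolynomial (Tx N d) ℚ, Δ ≠ 0 ∧ ∀ (K : Type) [Field K] [CharZero K] (c : Tx N d → K),
      aeval c Δ ≠ 0 → ∀ (Ω : Type) [Field Ω] [Algebra K Ω] (x : Pt N Ω), GenPt K c r x →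
        ∀ lam : Fin l → Ω, lam i0 = 0 →
          (∀ b, ∑ i, lam i * dF (fun e => algebraMap K Ω (c e)) x j b i = 0) → lam = 0 := by
  classical
  obtain ⟨Δ, h0, h1⟩ := prod_delta (ι := Tx N d)
    (I := Fin (N r + 1) × {i : Fin l // i ≠ i0})
    (fun p K _ _ c => ∀ (Ω : Type) [Field Ω] [Algebra K Ω] (x : Pt N Ω), GenPt K c r x →
        x r p.1 = 1 → ∀ lam : Fin l → Ω, lam i0 = 0 → lam p.2 = 1 →
          ¬ ∀ b, ∑ i, lam i * dF (fun e => algebraMap K Ω (c e)) x j b i = 0)
    (fun p => nice2_chart h r hr j hj i0 p.1 p.2.1 p.2.2)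
  refine ⟨Δ, h0, fun K _ _ c hc Ω _ _ x hx lam hl hb => ?_⟩
  by_contra hne
  obtain ⟨is, his⟩ := Function.ne_iff.1 hne
  have hisn : is ≠ i0 := by
    rintro rfl
    exact his hl
  obtain ⟨e1, he1⟩ := hx.norm
  refine h1 K c hc (e1, ⟨is, hisn⟩) Ω x hx he1 (fun i => (lam is)⁻¹ * lam i) ?_ ?_ ?_
  · rw [hl, mul_zero]
  · exact inv_mul_cancel₀ his
  · intro b
    have := hb b
    calc ∑ i, (lam is)⁻¹ * lam i * dF (fun e => algebraMap K Ω (c e)) x j b i
        = (lam is)⁻¹ * ∑ i, lam i * dF (fun e => algebraMap K Ω (c e)) x j b i := by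
          rw [Finset.mul_sum]
          exact Finset.sum_congr rfl fun i _ => by ring
      _ = 0 := by rw [this, mul_zero]

end Pool.Agent.Helper66.M
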